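import Pool.Agent.Lib.MP_ef18bd_co.R78.Idx2

/-!
# The states of a piece in small steps

`kck`: the memberships of the patterns `kpx`, every number is computed once; `ckV`: the states `i`, .., `i + n - 1`
of a piece. `CkP`: the first states are checked, `ppI_stepV`: one piece.
-/

namespace EF18.P78

open Finset

/-- for all members of the list, with a rest of the hints -/
def kcw {α : Type} (f : α → (ℕ → Bool) → ℕ → Bool) : List α → (ℕ → Bool) → ℕ → Bool :=
  @List.rec α (fun _ => (ℕ → Bool) → ℕ → Bool) (fun k H => k H) (fun w _ r k H => f w (fun H' => r k H') H)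

theorem allK_append {Ps : List (ℕ × ℕ)} {B : List (ℕ × ℕ)} : ∀ {A : List (ℕ × ℕ)} {k : ℕ → Bool} {H : ℕ},
    allK Ps k (A ++ B) H = allK Ps (fun H' => allK Ps k B H') A H := by
  intro A
  induction A with
  | nil => intro k H; rfl
  | cons a A ih =>
    intro k H
    rw [List.cons_append, allK, allK, frc_eq, frc_eq, ih]

theorem kcw_eq {α : Type} {Ps : List (ℕ × ℕ)} {f : α → (ℕ → Bool) → ℕ → Bool} {g : α → List (ℕ × ℕ)}
    (hf : ∀ w k H, f w k H = allK Ps k (g w) H) : ∀ {W : List α} {k : ℕ → Bool} {H : ℕ},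
    kcw f W k H = allK Ps k (W.flatMap g) H := by
  intro W
  induction W with
  | nil => intro k H; rfl
  | cons w W ih =>
    intro k H
    have e : kcw f (w :: W) k H = f w (fun H' => kcw f W k H') H := rfl
    rw [e, hf, List.flatMap_cons, allK_append]
    congr 1
    funext H'
    exact ih

/-- the memberships of the patterns `kpx` -/
def kck (Ps : List (ℕ × ℕ)) (n : ℕ) : List ℕ → ℕ → ℕ → ℕ → List ℕ → (ℕ → Bool) → ℕ → Bool :=
  @List.rec ℕ (fun _ => ℕ → ℕ → ℕ → List ℕ → (ℕ → Bool) → ℕ → Bool)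
    (fun M q _ _ k H => memI Ps (Nat.mod H 16777216) M q && frc (Nat.div H 16777216) k)
    (fun a _ r M q u W k H =>
      kcw (fun w k' H' => frc (cdd a (3 * w + 2) q) fun q' => r M q' u (W.filter fun w' => !Nat.beq w' w) k' H') W
        (fun H1 => bif Nat.ble 3 u then k H1 else
          frc (cll a (3 * n + u) q) fun q1 => frc (Nat.succ u) fun u1 => r M q1 u1 W (fun H2 =>
            frc (cdd (3 * n + u) (3 * M + 1) (cdd a (3 * M) q)) fun q2 => frc (Nat.succ M) fun M1 =>
              r M1 q2 u1 (M :: W) k H2) H1) H)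

theorem kck_cons (Ps : List (ℕ × ℕ)) (n a : ℕ) (as : List ℕ) (M q u : ℕ) (W : List ℕ) (k : ℕ → Bool) (H : ℕ) :
    kck Ps n (a :: as) M q u W k H =
      kcw (fun w k' H' => frc (cdd a (3 * w + 2) q) fun q' =>
        kck Ps n as M q' u (W.filter fun w' => !Nat.beq w' w) k' H') W
        (fun H1 => bif Nat.ble 3 u then k H1 else
          frc (cll a (3 * n + u) q) fun q1 => frc (Nat.succ u) fun u1 => kck Ps n as M q1 u1 W (fun H2 =>
            frc (cdd (3 * n + u) (3 * M + 1) (cdd a (3 * M) q)) fun q2 => frc (Nat.succ M) fun M1 =>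
              kck Ps n as M1 q2 u1 (M :: W) k H2) H1) H := rfl

theorem kck_eq {Ps : List (ℕ × ℕ)} {n : ℕ} : ∀ {as : List ℕ} {M q u : ℕ} {W : List ℕ} {k : ℕ → Bool} {H : ℕ},
    kck Ps n as M q u W k H = allK Ps k (kpx n as M q u W) H := by
  intro as
  induction as with
  | nil => intro M q u W k H; rfl
  | cons a as ih =>
    intro M q u W k H
    rw [kck_cons, kpx, allK_append]
    rw [kcw_eq (g := fun w => kpx n as M (cdd a (3 * w + 2) q) u (W.filter fun w' => !Nat.beq w' w))
      (fun w k' H' => by rw [frc_eq, ih])]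
    congr 1
    funext H1
    cases Nat.ble 3 u
    · rw [cond_false, cond_false, frc_eq, frc_eq, allK_append, ih]
      congr 1
      funext H2
      rw [frc_eq, frc_eq, ih]
    · rfl

/-- one state: the mode `v` -/
def ckS (Ps : List (ℕ × ℕ)) (q : ℕ × ℕ) (κ v : ℕ) (S : List ℕ) (k : ℕ → Bool) (H : ℕ) : Bool :=
  bif Nat.ble v 2 then (match ndS q S κ v with
    | none => false
    | some L => allK Ps k L H) else
  frc (rt q S).1 fun N => frc (rt q S).2 fun p =>
    (Nat.ble (N + κ + 2) 40 && nwi (N, p) q.1 && S.all (nwk (N, p) q.1)) &&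
      allK Ps (fun H1 => kcw (fun Z k' H' =>
          bif Nat.beq Z.length (Nat.succ κ) && !anyp (fun x y => mem2 (x, y) (slp (prs S) (v - 3))) Z then
            kck Ps N (Z.map (thp (N, p))) (N + 1) p 0 [] k' H' else k' H') S.sublists k H1)
        ((slp (prs S) (v - 3)).flatMap fun x => lpx N p (3 * tg (dg p x.1) + 2) (3 * tg (dg p x.2) + 2)) H

theorem flat_filter {α β : Type} (c : α → Bool) (g : α → List β) (L : List α) :
    (L.filter c).flatMap g = L.flatMap fun Z => bif c Z then g Z else [] := by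
  induction L with
  | nil => rfl
  | cons a L ih =>
    rw [List.flatMap_cons, ← ih, List.filter_cons]
    cases c a
    · rw [cond_false, List.nil_append, if_neg (by simp)]
    · rw [cond_true, if_pos rfl, List.flatMap_cons]

theorem ckS_eq {Ps : List (ℕ × ℕ)} {q : ℕ × ℕ} {κ v : ℕ} {S : List ℕ} {k : ℕ → Bool} {H : ℕ} :
    ckS Ps q κ v S k H = (match ndS q S κ v with
      | none => false
      | some L => allK Ps k L H) := by
  unfold ckS
  cases hv : Nat.ble v 2
  swap
  · rw [cond_true]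
  have h3 : 2 < v := by
    by_contra hc
    rw [Nat.ble_eq_true_of_le (by omega)] at hv
    exact absurd hv (by simp)
  rw [cond_false, frc_eq, frc_eq]
  unfold ndS
  have e0 : Nat.beq v 0 = false := beq_false (by omega)
  have e1 : Nat.beq v 1 = false := beq_false (by omega)
  have e2 : Nat.beq v 2 = false := beq_false (by omega)
  rw [e0, e1, e2, cond_false, cond_false, frc_eq, frc_eq, cond_false]
  cases hc : Nat.ble ((rt q S).1 + κ + 2) 40 && nwi ((rt q S).1, (rt q S).2) q.1 &&
      S.all (nwk ((rt q S).1, (rt q S).2) q.1)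
  · rw [cond_false, Bool.false_and]
  · rw [cond_true, Bool.true_and]
    dsimp only
    rw [allK_append]
    congr 1
    funext H1
    rw [flat_filter]
    exact kcw_eq fun Z k' H' => by
      cases Nat.beq Z.length (Nat.succ κ) && !anyp (fun x y => mem2 (x, y) (slp (prs S) (v - 3))) Z
      · rfl
      · rw [cond_true, cond_true, kck_eq]

/-- the states of a list -/
def ckU (Ps : List (ℕ × ℕ)) (q : ℕ × ℕ) (KD : List ℕ) (l : ℕ) : List (List ℕ) → List ℕ → ℕ → Bool
  | [], _, _ => true
  | _ :: _, [], _ => false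
  | S :: SS, v :: MD, H => ckS Ps q (KD.getD (l - S.length) 0) v S (fun H' => ckU Ps q KD l SS MD H') H

theorem ckU_eq {Ps : List (ℕ × ℕ)} {q : ℕ × ℕ} {KD : List ℕ} {l : ℕ} : ∀ {SS : List (List ℕ)} {MD : List ℕ}
    {H : ℕ}, ckU Ps q KD l SS MD H = ckT Ps q KD l SS MD H := by
  intro SS
  induction SS with
  | nil => intro MD H; cases MD <;> rfl
  | cons S SS ih =>
    intro MD H
    cases MD with
    | nil => rfl
    | cons v MD =>
      rw [ckU, ckT, ckS_eq]
      have e : (fun H' => ckU Ps q KD l SS MD H') = fun H' => ckT Ps q KD l SS MD H' := by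
        funext H'
        exact ih
      rw [e]
      cases ndS q S (KD.getD (l - S.length) 0) v <;> rfl

/-- the states `i`, .., `i + n - 1` of the piece `q` -/
def ckV (Ps : List (ℕ × ℕ)) (q : ℕ × ℕ) (KD : List ℕ) (i n : ℕ) (MD : List ℕ) (H : ℕ) : Bool :=
  frc (lkp q).length fun l => ckU Ps q KD l (((lkp q).sublists.drop i).take n) MD H

/-- the first `k` states are checked -/
def CkP (Ps : List (ℕ × ℕ)) (q : ℕ × ℕ) (KD : List ℕ) (k : ℕ) : Prop :=
  ∀ S ∈ (lkp q).sublists.take k,
    (kpc4 (dnL Ps) q S (KD.getD ((lkp q).length - S.length) 0) || mem2 (rt q S) (dnL Ps)) = true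

theorem ckP_zero (Ps : List (ℕ × ℕ)) (q : ℕ × ℕ) (KD : List ℕ) : CkP Ps q KD 0 := by
  intro S hS
  rw [List.take_zero] at hS
  exact absurd hS List.not_mem_nil

theorem ckP_step {Ps : List (ℕ × ℕ)} {q : ℕ × ℕ} {KD : List ℕ} {i n k : ℕ} (h : CkP Ps q KD i) {MD : List ℕ}
    {H : ℕ} (hc : ckV Ps q KD i n MD H = true) (hk : i + n = k) : CkP Ps q KD k := by
  intro S hS
  rw [← hk, List.take_add, List.mem_append] at hS
  rcases hS with hS | hS
  · exact h S hS
  · unfold ckV at hc
    rw [frc_eq, ckU_eq] at hc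
    exact ckT_of hc S hS

/-- the values and the rows of a piece -/
def rwV (g : ℕ) (TJ : List (List (List ℕ))) (a b : CPc) (KD : List ℕ) : Bool :=
  (a.2.all fun x => Nat.ble x 1000) &&
  (List.range ((lkp a.1).length + 1)).all fun d => (List.range TJ.length).all fun i =>
    tkj g (TJ.getD i []) a.2 b.2 d (Nat.min ((lkp a.1).length - d) ((i + 1) * KD.getD d 0))

/-- the piece has at most `m` states -/
def lnV (q : ℕ × ℕ) (m : ℕ) : Bool := Nat.ble (lkp q).sublists.length m

theorem ppI_stepV {Ps : List (ℕ × ℕ)} {g : ℕ} {TJ : List (List (List ℕ))} {CA CB : List CPc} {k k' m : ℕ}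
    (h : PpI Ps g TJ CA CB k) {K : List ℕ} {q : ℕ × ℕ} (hq : (gE CA k).1 = q)
    (h1 : rwV g TJ (gE CA k) (gE CB k) K = true)
    (h2 : CkP Ps q K m) (h3 : lnV q m = true) (he : k + 1 = k') :
    PpI Ps g TJ CA CB k' := by
  intro i hi
  rcases Nat.lt_or_ge i k with h4 | h4
  · exact h i h4
  rw [show i = k by omega]
  refine ⟨K, ?_⟩
  unfold rwV at h1
  unfold pckJ
  rw [Bool.and_eq_true] at h1
  rw [Bool.and_eq_true, Bool.and_eq_true]
  refine ⟨⟨h1.1, List.all_eq_true.2 fun S hS => ?_⟩, h1.2⟩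
  rw [hq] at hS ⊢
  refine h2 S ?_
  rw [List.take_of_length_le (Nat.le_of_ble_eq_true h3)]
  exact hS

end EF18.P78
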