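import Pool.Agent.Lib.MP_ef18bd_co.R78.JntR
import Pool.Agent.Lib.MP_ef18bd_co.P.Wc

/-!
# The fast tests for the joint rows

The tests of `stJ` with the words. `tokJu`: the tests for graphs without triangles are correct, `tokJm`: the tests
for all cubic graphs.
-/

namespace EF18.P78

namespace W

open EF18.W

/-! ### the values of the rows -/

/-- the row as a number -/
def pkr : List ℕ → ℕ := List.rec 0 (fun a _ r => Nat.add a (Nat.shiftLeft r 16))

/-- all entries are small -/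
def okr : List ℕ → Bool := List.rec true (fun a _ r => bc (Nat.ble a 65535) false r)

/-- the entry -/
def cju (T : List ℕ) (o : ℕ) : ℕ :=
  bc (okr T) (ctj T o) (bc (Nat.ble (Nat.succ o) T.length) (Nat.succ (Nat.mul 1000 o))
    (Nat.mod (Nat.shiftRight (pkr T) (Nat.mul 16 o)) 65536))

theorem pkr_eq : ∀ {T : List ℕ}, okr T = true → ∀ o, pkr T / 2 ^ (16 * o) % 65536 = T.getD o 0 := by
  intro T
  induction T with
  | nil => intro _ o; simp [pkr]
  | cons a T ih =>
    intro h o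
    have e : okr (a :: T) = bc (Nat.ble a 65535) false (okr T) := rfl
    rw [e, bc_eq] at h
    split_ifs at h with h1
    have h2 : a ≤ 65535 := Nat.le_of_ble_eq_true h1
    have e2 : pkr (a :: T) = a + pkr T * 2 ^ 16 := by
      rw [← Nat.shiftLeft_eq]
      rfl
    rw [e2]
    cases o with
    | zero =>
      rw [Nat.mul_zero, pow_zero, Nat.div_one]
      show _ = a
      omega
    | succ o =>
      rw [show 16 * (o + 1) = 16 + 16 * o by ring, pow_add, ← Nat.div_div_eq_div_mul,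
        show (a + pkr T * 2 ^ 16) / 2 ^ 16 = pkr T by omega, ih h]
      rfl

theorem cju_eq (T : List ℕ) (o : ℕ) : cju T o = ctj T o := by
  unfold cju
  rw [bc_eq]
  split_ifs with h
  · have h1 := pkr_eq h o
    have h2 : Nat.mod (Nat.shiftRight (pkr T) (Nat.mul 16 o)) 65536 = T.getD o 0 := by
      rw [← h1, ← Nat.shiftRight_eq_div_pow]
      rfl
    rw [h2]
    unfold ctj
    cases Nat.ble (Nat.succ o) T.length <;> rfl
  · rfl

/-! ### the rows -/

def jru1 (f : ℕ → ℕ → Bool) (g j : ℕ) (r : ℕ → Bool) (v : ℕ) : Bool :=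
  bc (zc v true (f v j)) false (r (Nat.add j g))

/-- all rows; `j` a multiple of `g`; there must be enough of them -/
def jru (f : ℕ → ℕ → Bool) (g o : ℕ) : List (List ℕ) → ℕ → Bool :=
  List.rec (motive := fun _ => ℕ → Bool) (fun j => Nat.ble (Nat.add 12 g) j)
    (fun T _ r j => jru1 f g j r (cju T o))

theorem jru_eq (f : ℕ → ℕ → Bool) (g o : ℕ) : ∀ (RT : List (List ℕ)) (j : ℕ),
    jru f g o RT (g * j) = (jrw (fun v j => f v (g * j)) o RT j && Nat.ble (Nat.add 12 g) (g * (j + RT.length))) := by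
  intro RT
  induction RT with
  | nil => intro j; rfl
  | cons T RT ih =>
    intro j
    have e : jru f g o (T :: RT) (g * j) =
      bc (zc (cju T o) true (f (cju T o) (g * j))) false (jru f g o RT (g * j + g)) := rfl
    rw [e, jrw, frc_eq, show g * j + g = g * (Nat.succ j) by rw [Nat.mul_succ], ih, cju_eq, zc_eq, bc_eq,
      List.length_cons, show j + (RT.length + 1) = Nat.succ j + RT.length by
        rw [Nat.succ_eq_add_one]; ring]
    by_cases h : ctj T o = 0
    · rw [h]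
      rfl
    · rw [if_neg h, show Nat.beq (ctj T o) 0 = false from EF18.beq_false h,
        Bool.false_or]
      cases f (ctj T o) (g * j) <;> rfl

theorem jru_iff {f : ℕ → ℕ → Bool} {g o : ℕ} {RT : List (List ℕ)} : jru f g o RT 0 = true ↔
    Nat.ble (Nat.mul 2 6) (Nat.mul g (Nat.pred RT.length)) = true ∧ jrw (fun v j => f v (g * j)) o RT 0 = true := by
  have e := jru_eq f g o RT 0
  rw [Nat.mul_zero, Nat.zero_add] at e
  rw [e, Bool.and_eq_true, Nat.ble_eq, Nat.ble_eq, and_comm]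
  refine and_congr_left fun _ => ?_
  change 12 + g ≤ g * RT.length ↔ 2 * 6 ≤ g * (RT.length - 1)
  cases h : RT.length with
  | zero =>
    constructor
    · intro h1
      change 12 + g ≤ 0 at h1
      omega
    · intro h1
      change 12 ≤ 0 at h1
      omega
  | succ l =>
    rw [Nat.mul_succ, Nat.succ_sub_one]
    omega

theorem jrw_mono {f f' : ℕ → ℕ → Bool} {o : ℕ} (h : ∀ v j, f v j = true → f' v j = true) :
    ∀ {RT : List (List ℕ)} {j : ℕ}, jrw f o RT j = true → jrw f' o RT j = true := by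
  intro RT
  induction RT with
  | nil => intro j _; rfl
  | cons T RT ih =>
    intro j h1
    rw [jrw, frc_eq, Bool.and_eq_true, Bool.or_eq_true] at h1 ⊢
    exact ⟨h1.1.imp id (h _ _), ih h1.2⟩

theorem jtsx_mono {ne : Bool} {D g kt kt' ka ka' : ℕ} {RT : List (List ℕ)} {o cT A A' R R' : ℕ}
    (h : jtsx ne D 6 g kt ka RT o 0 A R = true) (h1 : kt' ≤ kt) (h2 : ka ≤ ka') (h3 : A' + R ≤ A + R') :
    jtsx ne D 6 g kt' ka' RT o cT A' R' = true := by
  unfold jtsx at h ⊢
  rw [Bool.and_eq_true] at h ⊢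
  refine ⟨h.1, ?_⟩
  have h4 := h.2
  revert h4
  cases Nat.beq D 0
  · intro h4
    rw [cond_false, frc_eq] at h4 ⊢
    refine jrw_mono (fun v j hv => ?_) h4
    rw [Nat.ble_eq] at hv ⊢
    rw [mn_eq, mn_eq, mn_eq, mn_eq] at hv ⊢
    change A + v + min (2 * 6 - 0) (6 * min kt 2 - 6 * min (min ka kt) 2 + g * j - 0) ≤ R + 1 at hv
    change A' + v + min (2 * 6 - cT) (6 * min kt' 2 - 6 * min (min ka' kt') 2 + g * j - cT) ≤ R' + 1
    generalize g * j = x at *
    omega
  · intro h4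
    rw [cond_true] at h4 ⊢
    refine jrw_mono (fun v j hv => ?_) h4
    rw [Nat.ble_eq] at hv ⊢
    cases ne
    · rw [cond_false] at hv ⊢
      change A + v ≤ R + 1 + 0 at hv
      change A' + v ≤ R' + 1 + 0
      omega
    · rw [cond_true, mn_eq] at hv ⊢
      change A + v ≤ R + 1 + (6 * min ka 2 - g * j) at hv
      change A' + v ≤ R' + 1 + (6 * min ka' 2 - g * j)
      generalize g * j = x at *
      omega

/-! ### the test -/

/-- the rows, at least one port of degree one in the bound -/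
def jsD (g o : ℕ) (RT : List (List ℕ)) (A R ls : ℕ) : Bool :=
  jru (fun v j => Nat.ble (Nat.add (Nat.add A v) (mq 12 (Nat.add ls j))) R) g o RT 0

/-- the rows, `D = 0` -/
def jsZ (ne : Bool) (g o : ℕ) (RT : List (List ℕ)) (A R k6 : ℕ) : Bool :=
  jru (fun v j => Nat.ble (Nat.add A v) (Nat.add R (bc ne 0 (Nat.sub k6 j)))) g o RT 0

def tsj3 (ne : Bool) (D g o : ℕ) (RT : List (List ℕ)) (A R ka kt : ℕ) : Bool :=
  zc D (jsZ ne g o RT A R (Nat.mul 6 (mq ka 2)))
    (jsD g o RT A R (Nat.sub (Nat.mul 6 (mq kt 2)) (Nat.mul 6 (mq (mq ka kt) 2))))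

/-- the test, with the rows of the number of picks -/
def tsj (ne : Bool) (D g l : ℕ) (RT : List (List ℕ)) : TsN := fun o n0 N t1 dk lk ka m z =>
  tsj3 ne D g o RT (Nat.add (Nat.add (Nat.mul 78 l) (Nat.mul 12 (Nat.add n0 N))) (Nat.mul 18 z))
    (Nat.succ (Nat.add (Nat.add (Nat.mul 18 m) (Nat.mul 9 lk)) (Nat.mul 18 dk))) ka
    (Nat.add t1 (Nat.mul D N))

theorem tsj_iff {ne : Bool} {D g l : ℕ} {RT : List (List ℕ)} {o n0 N t1 dk lk ka m z : ℕ} :
    tsj ne D g l RT o n0 N t1 dk lk ka m z = true ↔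
    jtsx ne D 6 g (Nat.add t1 (Nat.mul D N)) ka RT o 0 (78 * l + 12 * (n0 + N) + 18 * z)
      (18 * m + 9 * lk + 18 * dk) = true := by
  unfold tsj tsj3 jsZ jsD jtsx
  rw [mq_eq, mq_eq, mq_eq, mq_eq, zc_eq, Bool.and_eq_true]
  by_cases hD : D = 0
  · rw [if_pos hD, jru_iff, hD, show Nat.beq 0 0 = true from rfl, cond_true]
    refine and_congr_right fun _ => ?_
    constructor
    · refine fun h => jrw_mono (fun v j hv => ?_) h
      rw [bc_eq] at hv
      cases ne
      · exact hv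
      · exact hv
    · refine fun h => jrw_mono (fun v j hv => ?_) h
      rw [bc_eq]
      cases ne
      · exact hv
      · exact hv
  · rw [if_neg hD, jru_iff, show Nat.beq D 0 = false from EF18.beq_false hD, cond_false,
      frc_eq]
    refine and_congr_right fun _ => ?_
    constructor
    · refine fun h => jrw_mono (fun v j hv => ?_) h
      rw [mq_eq] at hv
      exact hv
    · refine fun h => jrw_mono (fun v j hv => ?_) h
      rw [mq_eq]
      exact hv

theorem tsj_mo (ne : Bool) (D g l : ℕ) (RT : List (List ℕ)) : Mo (tsj ne D g l RT) := by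
  refine ⟨fun {o n0 N t1 t2 dk lk ka kb m z} h1 h2 h => ?_⟩
  exact tsj_iff.2 (jtsx_mono (tsj_iff.1 h) (Nat.add_le_add_right h1 _) h2 le_rfl)

theorem evlQ_W {ne : Bool} {T TI D n p : ℕ} {L : List ℕ} {cr crT : ℕ → ℕ → ℕ} {g : ℕ} {RT : List (List ℕ)}
    {out : ℕ → ℕ → ℕ} {xs : List (ℕ × ℕ)} {N z m lk : ℕ}
    (hN : N = ndr D n p (kms p L 0) + xN D n p (kms p L 0) (opm2 n p (kms p L 0) (ims p L 0)))
    (h1 : Nat.ble (Nat.succ n) 40 = true) (h2 : pks n p L 0 = true)
    (h7 : jtsx ne D 6 g (Nat.add (dnt n p) (Nat.mul D N)) (kaW D n p (kms p L 0)) RT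
      (out (kms p L 0) (ims p L 0)) 0 (78 * L.length + 12 * (n00 D n p (kms p L 0) + N) + 18 * z)
      (18 * m + 9 * lk + 18 * dnk n p (kms p L 0)) = true)
    (h8 : 18 * m + 12 * dnk n p (kms p L 0) + 9 * lk ≤ evs T TI n p (kms p L 0) (ims p L 0) + 18 * z) :
    evlQ ne 78 T TI D 12 6 n p L cr crT g RT out xs = some (xs ++ kin n p (kms p L 0) (ims p L 0) n) := by
  change N = Nat.add (ndr D n p (kms p L 0))
    (xN D n p (kms p L 0) (opm2 n p (kms p L 0) (ims p L 0))) at hN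
  unfold evlQ
  rw [frc_eq, frc_eq, frc_eq, frc_eq, frc_eq, frc_eq, frc_eq, ← hN, h1, h2]
  have h9 : jtsx ne D 6 g (Nat.add (dnt n p) (Nat.mul D N)) (kaW D n p (kms p L 0)) RT (out (kms p L 0) (ims p L 0)) (crT (kms p L 0) (ims p L 0))
      (Nat.add (Nat.mul 78 L.length) (Nat.mul 12 (Nat.add (n00 D n p (kms p L 0)) N)))
      (Nat.add (Nat.add (evs T TI n p (kms p L 0) (ims p L 0)) (cr (kms p L 0) (ims p L 0))) (Nat.mul 6 (dnk n p (kms p L 0)))) = true := by
    refine jtsx_mono h7 le_rfl le_rfl ?_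
    change 78 * L.length + 12 * (n00 D n p (kms p L 0) + N) + (18 * m + 9 * lk + 18 * dnk n p (kms p L 0)) ≤
      78 * L.length + 12 * (n00 D n p (kms p L 0) + N) + 18 * z +
        (evs T TI n p (kms p L 0) (ims p L 0) + (cr (kms p L 0) (ims p L 0)) + 6 * dnk n p (kms p L 0))
    omega
  rw [h9]
  rfl

theorem evbQ_W {ne : Bool} {T TI D n p : ℕ} {L : List ℕ} {cr crT : ℕ → ℕ → ℕ} {g : ℕ} {RT : List (List ℕ)}
    {out : ℕ → ℕ → ℕ} {xs : List (ℕ × ℕ)} {z m lk : ℕ}
    (h1 : Nat.ble (Nat.add n 5) 40 = true) (h2 : pks n p L 0 = true)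
    (h7 : jtsx ne D 6 g (Nat.add (dnt n p) (Nat.mul D 0)) (kaE D n p (kms p L 0)) RT
      (out (kms p L 0) (ims p L 0)) 0 (78 * L.length + 12 * (n00 D n p (kms p L 0) + 0) + 18 * z)
      (18 * m + 9 * lk + 18 * dnk n p (kms p L 0)) = true)
    (h8 : 18 * m + 12 * dnk n p (kms p L 0) + 9 * lk ≤ evs T TI n p (kms p L 0) (ims p L 0) + 18 * z) :
    iss (evbQ ne 78 T TI D 12 6 n p L cr crT g RT out xs) = true := by
  unfold evbQ
  rw [frc_eq, frc_eq, frc_eq, frc_eq, frc_eq, frc_eq, h1, h2]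
  have h9 : jtsx ne D 6 g (dnt n p) (kaE D n p (kms p L 0)) RT (out (kms p L 0) (ims p L 0)) (crT (kms p L 0) (ims p L 0))
      (Nat.add (Nat.mul 78 L.length) (Nat.mul 12 (n00 D n p (kms p L 0))))
      (Nat.add (Nat.add (evs T TI n p (kms p L 0) (ims p L 0)) (cr (kms p L 0) (ims p L 0))) (Nat.mul 6 (dnk n p (kms p L 0)))) = true := by
    refine jtsx_mono h7 le_rfl le_rfl ?_
    change 78 * L.length + 12 * (n00 D n p (kms p L 0)) + (18 * m + 9 * lk + 18 * dnk n p (kms p L 0)) ≤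
      78 * L.length + 12 * (n00 D n p (kms p L 0) + 0) + 18 * z +
        (evs T TI n p (kms p L 0) (ims p L 0) + (cr (kms p L 0) (ims p L 0)) + 6 * dnk n p (kms p L 0))
    omega
  rw [h9]
  rfl

theorem evlI_W {ne x : Bool} {T TI D n p : ℕ} {L : List ℕ} {cr crT : ℕ → ℕ → ℕ} {g : ℕ} {RT : List (List ℕ)}
    {out : ℕ → ℕ → ℕ} {xs : List (ℕ × ℕ)} {N z m lk : ℕ}
    (hN : N = ndr D n p (kms p L 0) + xN D n p (kms p L 0) (opm2 n p (kms p L 0) (ims p L 0)))
    (h1 : Nat.ble (Nat.succ n) 40 = true) (h2 : pks n p L 0 = true)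
    (h7 : jtsx ne D 6 g (Nat.add (kbK false n p (kms p L 0)) (Nat.mul D N)) (kaWK false D n p (kms p L 0)) RT
      (out (kms p L 0) (ims p L 0)) 0 (78 * L.length + 12 * (n00 D n p (kms p L 0) + N) + 18 * z)
      (18 * m + 9 * lk + 18 * dnk n p (kms p L 0)) = true)
    (h8 : 18 * m + 12 * dnk n p (kms p L 0) + 9 * lk ≤ evs T TI n p (kms p L 0) (ims p L 0) + 18 * z) :
    evlI ne false x 78 T TI D 12 6 6 n p L cr crT g RT out xs = some (xs ++ kin n p (kms p L 0) (ims p L 0) n) := by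
  change N = Nat.add (ndr D n p (kms p L 0))
    (xN D n p (kms p L 0) (opm2 n p (kms p L 0) (ims p L 0))) at hN
  unfold evlI
  rw [frc_eq, frc_eq, frc_eq, frc_eq, frc_eq, frc_eq, frc_eq, ← hN, h1, h2, tpl_false, List.append_nil]
  have h9 : jtsx ne D 6 g (Nat.add (kbK false n p (kms p L 0)) (Nat.mul D N)) (kaWK false D n p (kms p L 0)) RT (out (kms p L 0) (ims p L 0)) (crT (kms p L 0) (ims p L 0))
      (Nat.add (Nat.mul 78 L.length) (Nat.mul 12 (Nat.add (n00 D n p (kms p L 0)) N)))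
      (Nat.add (Nat.add (evs T TI n p (kms p L 0) (ims p L 0)) (Nat.add (xdc x 6 n p (kms p L 0)) (cr (kms p L 0) (ims p L 0)))) (Nat.mul 6 (dnk n p (kms p L 0)))) = true := by
    refine jtsx_mono h7 le_rfl le_rfl ?_
    change 78 * L.length + 12 * (n00 D n p (kms p L 0) + N) + (18 * m + 9 * lk + 18 * dnk n p (kms p L 0)) ≤
      78 * L.length + 12 * (n00 D n p (kms p L 0) + N) + 18 * z +
        (evs T TI n p (kms p L 0) (ims p L 0) + (Nat.add (xdc x 6 n p (kms p L 0)) (cr (kms p L 0) (ims p L 0))) + 6 * dnk n p (kms p L 0))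
    omega
  rw [h9]
  rfl

theorem evbI_W {ne x : Bool} {T TI D n p : ℕ} {L : List ℕ} {cr crT : ℕ → ℕ → ℕ} {g : ℕ} {RT : List (List ℕ)}
    {out : ℕ → ℕ → ℕ} {xs : List (ℕ × ℕ)} {z m lk : ℕ}
    (h1 : Nat.ble (Nat.add n 5) 40 = true) (h2 : pks n p L 0 = true)
    (h7 : jtsx ne D 6 g (Nat.add (kbK false n p (kms p L 0)) (Nat.mul D 0)) (kaEK false D n p (kms p L 0)) RT
      (out (kms p L 0) (ims p L 0)) 0 (78 * L.length + 12 * (n00 D n p (kms p L 0) + 0) + 18 * z)
      (18 * m + 9 * lk + 18 * dnk n p (kms p L 0)) = true)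
    (h8 : 18 * m + 12 * dnk n p (kms p L 0) + 9 * lk ≤ evs T TI n p (kms p L 0) (ims p L 0) + 18 * z) :
    iss (evbI ne false x 78 T TI D 12 6 6 n p L cr crT g RT out xs) = true := by
  unfold evbI
  rw [frc_eq, frc_eq, frc_eq, frc_eq, frc_eq, frc_eq, h1, h2]
  have h9 : jtsx ne D 6 g (kbK false n p (kms p L 0)) (kaEK false D n p (kms p L 0)) RT (out (kms p L 0) (ims p L 0)) (crT (kms p L 0) (ims p L 0))
      (Nat.add (Nat.mul 78 L.length) (Nat.mul 12 (n00 D n p (kms p L 0))))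
      (Nat.add (Nat.add (evs T TI n p (kms p L 0) (ims p L 0)) (Nat.add (xdc x 6 n p (kms p L 0)) (cr (kms p L 0) (ims p L 0)))) (Nat.mul 6 (dnk n p (kms p L 0)))) = true := by
    refine jtsx_mono h7 le_rfl le_rfl ?_
    change 78 * L.length + 12 * (n00 D n p (kms p L 0)) + (18 * m + 9 * lk + 18 * dnk n p (kms p L 0)) ≤
      78 * L.length + 12 * (n00 D n p (kms p L 0) + 0) + 18 * z +
        (evs T TI n p (kms p L 0) (ims p L 0) + (Nat.add (xdc x 6 n p (kms p L 0)) (cr (kms p L 0) (ims p L 0))) + 6 * dnk n p (kms p L 0))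
    omega
  rw [h9]
  rfl

/-! ### the tests -/

/-- the rows of the number of picks -/
def tblj (TJ : List (List (List ℕ))) : ℕ → List (List ℕ) :=
  List.rec (motive := fun _ => ℕ → List (List ℕ)) (fun _ => []) (fun a _ r j => zc j a (r (Nat.pred j))) TJ

theorem tblj_eq (TJ : List (List (List ℕ))) : ∀ j, tblj TJ j = TJ.getD j [] := by
  induction TJ with
  | nil => intro j; rfl
  | cons T TJ ih =>
    intro j
    have e : tblj (T :: TJ) j = zc j T (tblj TJ (Nat.pred j)) := rfl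
    rw [e, zc_eq]
    cases j with
    | zero => rfl
    | succ j =>
      rw [if_neg (Nat.succ_ne_zero j), ih]
      rfl

/-- the test of a token -/
def tgj (ne : Bool) (g : ℕ) (TJ : List (List (List ℕ))) (D m : ℕ) : TsN :=
  tsj ne D g m (tblj TJ (Nat.pred m))

/-- all completions, without triangles -/
def leQ (ne : Bool) (g : ℕ) (TJ : List (List (List ℕ))) (D n p m z : ℕ) : Bool :=
  lwC (fun _ _ _ u M IN => keg (tgj ne g TJ D m) u M IN) 5 n p m z

/-- the worst case, without triangles -/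
def lwQ (ne : Bool) (g : ℕ) (TJ : List (List (List ℕ))) (lf : Bool) (D n p m z : ℕ) : Bool :=
  lwC (fun _ _ _ u M IN => kwg (tgj ne g TJ D m) lf D u M IN) 1 n p m z

/-- all completions, all cubic graphs -/
def leI (ne : Bool) (g : ℕ) (TJ : List (List (List ℕ))) (D n p m z : ℕ) : Bool :=
  lwC (fun n p c u M IN => keh (tgj ne g TJ D m) n p c u M IN) 5 n p m z

/-- the worst case, all cubic graphs -/
def lwI (ne : Bool) (g : ℕ) (TJ : List (List (List ℕ))) (lf : Bool) (D n p m z : ℕ) : Bool :=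
  lwC (fun n p c u M IN => kwh (tgj ne g TJ D m) lf D n p c u M IN) 1 n p m z

section

variable {ne lf x : Bool} {g : ℕ} {TJ : List (List (List ℕ))} {RT : List (List ℕ)} {D n p m z : ℕ}
  {cr crT out : ℕ → ℕ → ℕ} {xs : List (ℕ × ℕ)}

theorem leQ_of (hw : Wf n p) (hD : D < 3) (h : leQ ne g TJ D n p m z = true) {L : List ℕ}
    (hL : L = pkz m z)
    (hRT : RT = TJ.getD (Nat.pred L.length) [])
    (ho : out (kms p L 0) (ims p L 0) = outx n p (kms p L 0) (ims p L 0) 0) :
    iss (evbQ ne 78 tK tI D 12 6 n p L cr crT g RT out xs) = true := by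
  obtain ⟨h1, h3, h4⟩ := lwC_of h
  have hl : m = L.length := by rw [hL, pkz_length]
  rw [← hL] at h3 h4
  have hn : n + 5 ≤ 40 := Nat.le_of_ble_eq_true h1
  have h7 := tsj_iff.1 (keg_of hw hD (by omega) h4)
  have h8 := evs_W n p L
  rw [← dnk_W] at h8
  rw [tblj_eq, hl, ← hRT, ← ho] at h7
  exact evbQ_W h1 h3 h7 h8

theorem lwQ_of (hw : Wf n p) (hD : D < 3) (h : lwQ ne g TJ lf D n p m z = true) {L : List ℕ}
    (hL : L = pkz m z)
    (hRT : RT = TJ.getD (Nat.pred L.length) [])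
    (ho : out (kms p L 0) (ims p L 0) = outx n p (kms p L 0) (ims p L 0) 0) :
    evlQ ne 78 tK tI D 12 6 n p L cr crT g RT out xs = some (xs ++ kin n p (kms p L 0) (ims p L 0) n) ∧
      (lf = true → kin n p (kms p L 0) (ims p L 0) n = []) := by
  obtain ⟨h1, h3, h4⟩ := lwC_of h
  have hl : m = L.length := by rw [hL, pkz_length]
  rw [← hL] at h3 h4
  have hn : n + 1 ≤ 40 := Nat.le_of_ble_eq_true h1
  obtain ⟨h5, h6⟩ := kwg_of hw hD (by omega) h4
  have h7 := tsj_iff.1 (h6 (opm2 n p (kms p L 0) (ims p L 0)) (opm2_W n p L))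
  have h8 := evs_W n p L
  rw [← dnk_W] at h8
  rw [tblj_eq, hl, ← hRT, ← ho] at h7
  exact ⟨evlQ_W rfl h1 h3 h7 h8, fun hlf => kin_nil (h5 hlf) n le_rfl⟩

theorem leI_of (hw : Wf n p) (hD : D < 3) (h : leI ne g TJ D n p m z = true) {L : List ℕ}
    (hL : L = pkz m z)
    (hRT : RT = TJ.getD (Nat.pred L.length) [])
    (ho : out (kms p L 0) (ims p L 0) = outx n p (kms p L 0) (ims p L 0) 0) :
    iss (evbI ne false x 78 tK tI D 12 6 6 n p L cr crT g RT out xs) = true := by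
  obtain ⟨h1, h3, h4⟩ := lwC_of h
  have hl : m = L.length := by rw [hL, pkz_length]
  rw [← hL] at h3 h4
  have hn : n + 5 ≤ 40 := Nat.le_of_ble_eq_true h1
  have h7 := tsj_iff.1 (keh_of (tsj_mo ne D g m _) hw hD (by omega) h4)
  have h8 := evs_W n p L
  rw [← dnk_W] at h8
  rw [tblj_eq, hl, ← hRT, ← ho] at h7
  exact evbI_W h1 h3 h7 h8

theorem lwI_of (hw : Wf n p) (hD : D < 3) (h : lwI ne g TJ lf D n p m z = true) {L : List ℕ}
    (hL : L = pkz m z)
    (hRT : RT = TJ.getD (Nat.pred L.length) [])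
    (ho : out (kms p L 0) (ims p L 0) = outx n p (kms p L 0) (ims p L 0) 0) :
    evlI ne false x 78 tK tI D 12 6 6 n p L cr crT g RT out xs = some (xs ++ kin n p (kms p L 0) (ims p L 0) n) ∧
      (lf = true → kin n p (kms p L 0) (ims p L 0) n = []) := by
  obtain ⟨h1, h3, h4⟩ := lwC_of h
  have hl : m = L.length := by rw [hL, pkz_length]
  rw [← hL] at h3 h4
  have hn : n + 1 ≤ 40 := Nat.le_of_ble_eq_true h1
  obtain ⟨h5, h6⟩ := kwh_of (tsj_mo ne D g m _) hw hD (by omega) h4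
  have h7 := tsj_iff.1 (h6 (opm2 n p (kms p L 0) (ims p L 0)) (opm2_W n p L))
  have h8 := evs_W n p L
  rw [← dnk_W] at h8
  rw [tblj_eq, hl, ← hRT, ← ho] at h7
  exact ⟨evlI_W rfl h1 h3 h7 h8, fun hlf => kin_nil (h5 hlf) n le_rfl⟩

end

end W

theorem evbJ_tf (ne x : Bool) (P T TI D dl b c n p : ℕ) (L : List ℕ) (cr crT : ℕ → ℕ → ℕ) (g : ℕ)
    (RT : List (List ℕ)) (out : ℕ → ℕ → ℕ) (xs : List (ℕ × ℕ)) :
    evbJ true ne false x P T TI D dl b c n p L cr crT g RT out xs =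
      evbQ ne P T TI D dl b n p L cr crT g RT out xs := rfl

theorem evlJ_tf (ne x : Bool) (P T TI D dl b c n p : ℕ) (L : List ℕ) (cr crT : ℕ → ℕ → ℕ) (g : ℕ)
    (RT : List (List ℕ)) (out : ℕ → ℕ → ℕ) (xs : List (ℕ × ℕ)) :
    evlJ true ne false x P T TI D dl b c n p L cr crT g RT out xs =
      evlQ ne P T TI D dl b n p L cr crT g RT out xs := rfl

theorem evbJ_ntf (ne e x : Bool) (P T TI D dl b c n p : ℕ) (L : List ℕ) (cr crT : ℕ → ℕ → ℕ) (g : ℕ)
    (RT : List (List ℕ)) (out : ℕ → ℕ → ℕ) (xs : List (ℕ × ℕ)) :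
    evbJ false ne e x P T TI D dl b c n p L cr crT g RT out xs =
      evbI ne e x P T TI D dl b c n p L cr crT g RT out xs := rfl

theorem evlJ_ntf (ne e x : Bool) (P T TI D dl b c n p : ℕ) (L : List ℕ) (cr crT : ℕ → ℕ → ℕ) (g : ℕ)
    (RT : List (List ℕ)) (out : ℕ → ℕ → ℕ) (xs : List (ℕ × ℕ)) :
    evlJ false ne e x P T TI D dl b c n p L cr crT g RT out xs =
      evlI ne e x P T TI D dl b c n p L cr crT g RT out xs := rfl

/-- the fast test of an event with all completions, without triangles -/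
def tEq (ne : Bool) (CA CB : List CPc) (g : ℕ) (TJ : List (List (List ℕ))) (D : ℕ) (ML : List MPc)
    (n p y : ℕ) : Bool :=
  W.tku y (fun m z => W.leQ ne g TJ D n p m z) (iss (pEJ ne CA CB g TJ D true ML n p y))

/-- the fast test of an event in the worst case, without triangles -/
def tWq (ne : Bool) (CA CB : List CPc) (g : ℕ) (TJ : List (List (List ℕ))) (D : ℕ) (ML : List MPc)
    (n p y : ℕ) : Bool :=
  W.tku y (fun m z => W.lwQ ne g TJ false D n p m z) (iss (pWJ ne CA CB g TJ D true ML n p y))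

/-- the fast test of a leaf, without triangles -/
def lwq (ne : Bool) (CA CB : List CPc) (g : ℕ) (TJ : List (List (List ℕ))) (D : ℕ) (ML : List MPc)
    (n p y : ℕ) : Bool :=
  W.tku y (fun m z => W.lwQ ne g TJ true D n p m z) (isn (pWJ ne CA CB g TJ D true ML n p y))

/-- the fast test of an event with all completions, all cubic graphs -/
def tEi (ne : Bool) (CA CB : List CPc) (g : ℕ) (TJ : List (List (List ℕ))) (D : ℕ) (ML : List MPc)
    (n p y : ℕ) : Bool :=
  W.tkm y (fun m z => W.leI ne g TJ D n p m z) (iss (pEJ ne CA CB g TJ D false ML n p y))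

/-- the fast test of an event in the worst case, all cubic graphs -/
def tWi (ne : Bool) (CA CB : List CPc) (g : ℕ) (TJ : List (List (List ℕ))) (D : ℕ) (ML : List MPc)
    (n p y : ℕ) : Bool :=
  W.tkm y (fun m z => W.lwI ne g TJ false D n p m z) (iss (pWJ ne CA CB g TJ D false ML n p y))

/-- the fast test of a leaf, all cubic graphs -/
def lwi (ne : Bool) (CA CB : List CPc) (g : ℕ) (TJ : List (List (List ℕ))) (D : ℕ) (ML : List MPc)
    (n p y : ℕ) : Bool :=
  W.tkm y (fun m z => W.lwI ne g TJ true D n p m z) (isn (pWJ ne CA CB g TJ D false ML n p y))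

/-- **the fast tests are correct**, without triangles -/
theorem tokJu (ne : Bool) (CA CB : List CPc) (g : ℕ) (TJ : List (List (List ℕ))) {D : ℕ} (hD : D < 3)
    (ML : List MPc) : TokJ ne CA CB g TJ D true ML (tEq ne CA CB g TJ D ML) (tWq ne CA CB g TJ D ML)
      (lwq ne CA CB g TJ D ML) := by
  refine ⟨fun n p y hp h => ?_, fun n p y hp h => ?_, ?_⟩
  · rcases W.tku_of h with h | ⟨h, h1⟩
    · exact h
    · unfold pEJ
      rw [h1, evbJ_tf]
      exact W.leQ_of (wf_wfp hp) hD h rfl rfl rfl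
  · rcases W.tku_of h with h | ⟨h, h1⟩
    · exact h
    · unfold pWJ
      rw [h1, evlJ_tf, (W.lwQ_of (wf_wfp hp) hD h rfl rfl rfl).1]
      rfl
  · intro V _ _ G _ U n p φ ν y he h
    rcases W.tku_of h with h | ⟨h, h1⟩
    · exact isn_iff h
    · unfold pWJ
      obtain ⟨h2, h3⟩ := W.lwQ_of he.wf hD h (cr := fun M _ => crd CA n p M 6 0 0)
        (crT := fun M _ => crd CB n p M 6 0 0) (out := fun M IN => outx n p M IN 0)
        (xs := ovm (okB D true) (Nat.ble 1 D) ML (pkz (Nat.mod y 8) (Nat.div y 64)) 0 n p n) rfl rfl rfl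
      rw [h1, evlJ_tf, h2, h3 rfl, ovm_zero]
      rfl

/-- **the fast tests are correct**, all cubic graphs -/
theorem tokJm (ne : Bool) (CA CB : List CPc) (g : ℕ) (TJ : List (List (List ℕ))) {D : ℕ} (hD : D < 3)
    (ML : List MPc) : TokJ ne CA CB g TJ D false ML (tEi ne CA CB g TJ D ML) (tWi ne CA CB g TJ D ML)
      (lwi ne CA CB g TJ D ML) := by
  refine ⟨fun n p y hp h => ?_, fun n p y hp h => ?_, ?_⟩
  · rcases W.tkm_of h with h | ⟨h, h1⟩
    · exact h
    · unfold pEJ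
      rw [h1, evbJ_ntf]
      exact W.leI_of (wf_wfp hp) hD h rfl rfl rfl
  · rcases W.tkm_of h with h | ⟨h, h1⟩
    · exact h
    · unfold pWJ
      rw [h1, evlJ_ntf, (W.lwI_of (wf_wfp hp) hD h rfl rfl rfl).1]
      rfl
  · intro V _ _ G _ U n p φ ν y he h
    rcases W.tkm_of h with h | ⟨h, h1⟩
    · exact isn_iff h
    · unfold pWJ
      obtain ⟨h2, h3⟩ := W.lwI_of (x := tb y 4) he.wf hD h (cr := fun M _ => crd CA n p M 6 0 0)
        (crT := fun M _ => crd CB n p M 6 0 0) (out := fun M IN => outx n p M IN 0)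
        (xs := ovm (okB D false) (Nat.ble 1 D) ML (pkz (Nat.mod y 8) (Nat.div y 64)) 0 n p n) rfl rfl rfl
      rw [h1, evlJ_ntf, h2, h3 rfl, ovm_zero]
      rfl

end EF18.P78
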